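import Mathlib

/-!
# `∑_(s < p) ∑_(0 < i < p ^ m) s ^ i C (p ^ m, i) / p = -1` in characteristic `p`
-/

namespace Pool.Agent.H98.CA

private theorem row (d s : ℕ) (hd : 1 ≤ d) :
    ∑ i ∈ Finset.Ioo 0 d, s ^ i * d.choose i + s ^ d + 1 = (s + 1) ^ d := by
  rw [add_pow]
  have h1 : ∑ i ∈ Finset.range (d + 1), s ^ i * 1 ^ (d - i) * ((d.choose i : ℕ) : ℕ) =
      ∑ i ∈ Finset.range (d + 1), s ^ i * d.choose i := by
    refine Finset.sum_congr rfl fun i _ => ?_
    rw [one_pow, mul_one]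
  simp only [Nat.cast_id]
  have h2 : Finset.Ioo 0 d = (Finset.range d).erase 0 := by
    ext i
    rw [Finset.mem_Ioo, Finset.mem_erase, Finset.mem_range]
    omega
  rw [h1, Finset.sum_range_succ, Nat.choose_self, mul_one, h2,
    ← Finset.add_sum_erase (Finset.range d) (fun i => s ^ i * d.choose i)
      (Finset.mem_range.2 (show 0 < d by omega)), pow_zero, Nat.choose_zero_right]
  ring

theorem sum_pow {R : Type*} [CommRing R] (p : ℕ) [Fact p.Prime] [CharP R p] {m : ℕ}
    (hm : 1 ≤ m) :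
    ∑ s ∈ Finset.range p, ∑ i ∈ Finset.Ioo 0 (p ^ m),
      (s : R) ^ i * ((((p ^ m).choose i / p : ℕ)) : R) = -1 := by
  have hp : p.Prime := Fact.out
  have hd : 2 ≤ p ^ m := le_trans hp.two_le (Nat.le_self_pow (by omega) p)
  have key : p * ((∑ s ∈ Finset.range p, ∑ i ∈ Finset.Ioo 0 (p ^ m),
      s ^ i * ((p ^ m).choose i / p)) + 1) = p * p ^ (p ^ m - 1) := by
    have h1 : p * (∑ s ∈ Finset.range p, ∑ i ∈ Finset.Ioo 0 (p ^ m),
        s ^ i * ((p ^ m).choose i / p)) = ∑ s ∈ Finset.range p, ∑ i ∈ Finset.Ioo 0 (p ^ m),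
        s ^ i * ((p ^ m).choose i) := by
      rw [Finset.mul_sum]
      refine Finset.sum_congr rfl fun s _ => ?_
      rw [Finset.mul_sum]
      refine Finset.sum_congr rfl fun i hi => ?_
      rw [Finset.mem_Ioo] at hi
      have h2 : p ∣ (p ^ m).choose i := hp.dvd_choose_pow (by omega) (by omega)
      rw [mul_left_comm, Nat.mul_div_cancel' h2]
    have h3 : (∑ s ∈ Finset.range p, ∑ i ∈ Finset.Ioo 0 (p ^ m), s ^ i * ((p ^ m).choose i)) +
        ∑ s ∈ Finset.range p, s ^ p ^ m + p = ∑ s ∈ Finset.range p, (s + 1) ^ p ^ m := by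
      have h4 : ∑ s ∈ Finset.range p, (s + 1) ^ p ^ m = ∑ s ∈ Finset.range p,
          (∑ i ∈ Finset.Ioo 0 (p ^ m), s ^ i * (p ^ m).choose i + s ^ p ^ m + 1) :=
        Finset.sum_congr rfl fun s _ => (row (p ^ m) s (by omega)).symm
      rw [h4, Finset.sum_add_distrib, Finset.sum_add_distrib, Finset.sum_const, Finset.card_range,
        smul_eq_mul, mul_one]
    have h5 : ∑ s ∈ Finset.range p, (s + 1) ^ p ^ m = ∑ s ∈ Finset.range p, s ^ p ^ m +
        p ^ p ^ m := by
      have h6 := Finset.sum_range_succ (fun s => s ^ p ^ m) p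
      rw [Finset.sum_range_succ', zero_pow (by omega), add_zero] at h6
      exact h6
    rw [mul_add, h1, mul_one, ← pow_succ', Nat.sub_add_cancel (by omega)]
    omega
  have key2 := Nat.eq_of_mul_eq_mul_left hp.pos key
  have key3 := congrArg (Nat.cast : ℕ → R) key2
  rw [Nat.cast_add, Nat.cast_sum, Nat.cast_pow, CharP.cast_eq_zero R p, zero_pow (by omega),
    Nat.cast_one] at key3
  rw [eq_neg_iff_add_eq_zero, ← key3]
  congr 1
  refine Finset.sum_congr rfl fun s _ => ?_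
  rw [Nat.cast_sum]
  refine Finset.sum_congr rfl fun i _ => ?_
  rw [Nat.cast_mul, Nat.cast_pow]

end Pool.Agent.H98.CA
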