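import Pool.Agent.H61.CA.C0
import Pool.Agent.H61.CA.Cnj

/-!
# CORE C1a: the fibre of `F` over `k⟦u⟧`
-/

open MvPowerSeries

namespace Pool.Agent.H98.CA

open Pool.Agent.H13.CA

/-- the special fibre of `F.map π` over `k⟦u⟧` -/
theorem lt_res {k : Type*} [Field k] (p : ℕ) {s : ℕ}
    {F : FormalGroup (MvPowerSeries (Fin (s + 1)) k)} (hF : IsLT k p (s + 1) F)
    {π : MvPowerSeries (Fin (s + 1)) k →ₐ[k] PowerSeries k} (hπ : IsProj k s π) :
    (F.map (π : MvPowerSeries (Fin (s + 1)) k →+* PowerSeries k)).IsComm ∧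
    (∀ i, i < p ^ (s + 1) → PowerSeries.coeff i
      (mulSer (F.map (π : MvPowerSeries (Fin (s + 1)) k →+* PowerSeries k)) p) = 0) ∧
    PowerSeries.coeff (p ^ (s + 1))
      (mulSer (F.map (π : MvPowerSeries (Fin (s + 1)) k →+* PowerSeries k)) p) = PowerSeries.X ∧
    (∀ i, i < p ^ (s + 1 + 1) → (PowerSeries.X : PowerSeries k) ∣ PowerSeries.coeff i
      (mulSer (F.map (π : MvPowerSeries (Fin (s + 1)) k →+* PowerSeries k)) p)) ∧
    IsUnit (PowerSeries.coeff (p ^ (s + 1 + 1))
      (mulSer (F.map (π : MvPowerSeries (Fin (s + 1)) k →+* PowerSeries k)) p)) := by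
  have hco : ∀ i, PowerSeries.coeff i
      (mulSer (F.map (π : MvPowerSeries (Fin (s + 1)) k →+* PowerSeries k)) p) =
        π (PowerSeries.coeff i (mulSer F p)) := by
    intro i
    rw [mulSer_map, PowerSeries.coeff_map]
    rfl
  refine ⟨IsComm.map' hF.comm _, fun i hi => ?_, ?_, fun i hi => ?_, ?_⟩
  · rw [hco, hπ.ker]
    exact hF.low s (Nat.le_succ s) i hi
  · have h1 := hF.mid (Fin.last s)
    rw [Fin.val_last, ← hπ.ker, map_sub, hπ.high, sub_eq_zero] at h1
    rw [hco]
    exact h1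
  · rw [hco]
    have h1 := hF.low (s + 1) le_rfl i hi
    have h2 : Istd k (s + 1) (s + 1) ≤ (Ideal.span {(PowerSeries.X : PowerSeries k)}).comap
        (π : MvPowerSeries (Fin (s + 1)) k →+* PowerSeries k) := by
      rw [Istd, Ideal.span_le]
      rintro _ ⟨j, -, rfl⟩
      refine Ideal.mem_comap.2 ?_
      change π (X j) ∈ _
      refine Fin.lastCases ?_ (fun j => ?_) j
      · rw [hπ.high]
        exact Ideal.mem_span_singleton_self _
      · rw [hπ.low]
        exact Ideal.zero_mem _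
    exact Ideal.mem_span_singleton.1 (h2 h1)
  · rw [hco]
    exact hF.top.map π

end Pool.Agent.H98.CA
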